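import Pool.Agent.H41.OVO.Defs

/-!
# FACT 1: the hats of an ovoid span, and the form is the sum over the ovoid

`bf_pr`, `bf_hat`: the form of two pure tensors, of two hats. `hat_span`, `planch`.
-/

set_option autoImplicit false

namespace Pool.OVE55

open Finset Function Pool.OVE

section pure

variable {F : Type} [Field F] {h : ℕ} [NeZero h]

/-- The form of two pure tensors. -/
theorem bf_pr (a b : ZMod h → Fin 4 → F) : bf (pr a) (pr b) = ∏ n, om (a n) (b n) := by
  classical
  unfold bf pr wbr
  have h1 : ∀ n, om (a n) (b n) = ∑ i, a n i * b n (br i) := fun n => om_eq _ _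
  simp_rw [h1]
  rw [Finset.prod_univ_sum]
  refine Finset.sum_congr ?_ fun w _ => ?_
  · ext w
    simp
  · rw [Finset.prod_mul_distrib]

/-- The form is bilinear. -/
theorem bf_add_left (a b c : E F h) : bf (a + b) c = bf a c + bf b c := by
  unfold bf
  rw [← Finset.sum_add_distrib]
  exact Finset.sum_congr rfl fun w _ => by rw [Pi.add_apply, add_mul]

theorem bf_smul_left (r : F) (a c : E F h) : bf (r • a) c = r * bf a c := by
  unfold bf
  rw [Finset.mul_sum]
  exact Finset.sum_congr rfl fun w _ => by rw [Pi.smul_apply, smul_eq_mul, mul_assoc]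

theorem bf_comm (a b : E F h) : bf a b = bf b a := by
  unfold bf
  rw [← Equiv.sum_comp wbrE]
  exact Finset.sum_congr rfl fun w _ => by rw [wbrE_apply, wbr_wbr, mul_comm]

/-- The form as a linear map. -/
def bfL (b : E F h) : E F h →ₗ[F] F where
  toFun a := bf a b
  map_add' x y := bf_add_left x y b
  map_smul' r x := bf_smul_left r x b

@[simp] theorem bfL_apply (a b : E F h) : bfL b a = bf a b := rfl

theorem sum_two_pow : ∑ n : ZMod h, 2 ^ n.val = 2 ^ h - 1 := by
  obtain ⟨k, rfl⟩ : ∃ k, h = k + 1 := ⟨h - 1, by have := NeZero.pos h; omega⟩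
  have h1 : ∑ n : ZMod (k + 1), 2 ^ n.val = ∑ n : Fin (k + 1), 2 ^ (n : ℕ) := rfl
  have h2 : ∀ m : ℕ, ∑ i ∈ range m, 2 ^ i + 1 = 2 ^ m := by
    intro m
    induction m with
    | zero => simp
    | succ m ih => rw [sum_range_succ, pow_succ]; omega
  rw [h1, Fin.sum_univ_eq_sum_range (fun n => 2 ^ n) (k + 1)]
  have := h2 (k + 1)
  omega

end pure

section hat

variable {F : Type} [Field F] [CharP F 2] {h : ℕ}

theorem two_eq : (2 : F) = 0 := by
  have := CharP.cast_eq_zero F 2
  exact_mod_cast this

theorem om_self (u : Fin 4 → F) : om u u = 0 := by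
  unfold om
  linear_combination (u 0 * u 3 + u 1 * u 2) * (two_eq (F := F))

omit [CharP F 2] in
theorem om_comm (u v : Fin 4 → F) : om u v = om v u := by
  unfold om
  ring

theorem om_pw (u v : Fin 4 → F) (n : ZMod h) : om (pw u n) (pw v n) = om u v ^ (2 ^ n.val) := by
  unfold om pw
  rw [add_pow_char_pow, add_pow_char_pow, add_pow_char_pow, mul_pow, mul_pow, mul_pow, mul_pow]

variable [NeZero h]

/-- The form of two hats. -/
theorem bf_hat (u v : Fin 4 → F) : bf (hat (h := h) u) (hat v) = om u v ^ (2 ^ h - 1) := by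
  unfold hat
  rw [bf_pr]
  simp_rw [om_pw]
  rw [Finset.prod_pow_eq_pow_sum, sum_two_pow]

end hat

/-! ## Ovoids -/

section ovoid

variable {F : Type} [Field F] [Fintype F] [CharP F 2] {h : ℕ} [NeZero h] {ι : Type} [Fintype ι]
  [DecidableEq ι] {v : ι → Fin 4 → F}

omit [Fintype ι] in
/-- The Gram matrix. -/
theorem gram (hF : Fintype.card F = 2 ^ h) (hv : ∀ i j, i ≠ j → om (v i) (v j) ≠ 0) (i j : ι) :
    bf (hat (h := h) (v i)) (hat (v j)) = 1 + if i = j then 1 else 0 := by
  have h2 := two_eq (F := F)
  rw [bf_hat]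
  by_cases hij : i = j
  · rw [if_pos hij, hij, om_self, zero_pow (by
      have : 2 ≤ 2 ^ h := by
        calc 2 = 2 ^ 1 := rfl
          _ ≤ 2 ^ h := Nat.pow_le_pow_right (by norm_num) (NeZero.pos h)
      omega)]
    linear_combination -h2
  · rw [if_neg hij, ← hF, FiniteField.pow_card_sub_one_eq_one _ (hv i j hij), add_zero]

/-- From functions on the ovoid to the space. -/
noncomputable def toE (h : ℕ) [NeZero h] (v : ι → Fin 4 → F) : (ι → F) →ₗ[F] E F h where
  toFun c := ∑ i, c i • hat (v i)
  map_add' c d := by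
    rw [← Finset.sum_add_distrib]
    exact Finset.sum_congr rfl fun i _ => by rw [Pi.add_apply, add_smul]
  map_smul' r c := by
    rw [RingHom.id_apply, Finset.smul_sum]
    exact Finset.sum_congr rfl fun i _ => by rw [Pi.smul_apply, smul_eq_mul, mul_smul]

/-- The values of an element of the space. -/
noncomputable def val (v : ι → Fin 4 → F) : E F h →ₗ[F] (ι → F) :=
  LinearMap.pi fun i => bfL (hat (v i))

omit [Fintype F] [CharP F 2] [DecidableEq ι] [Fintype ι] in
theorem val_apply (φ : E F h) (i : ι) : val v φ i = bf φ (hat (v i)) := rfl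

theorem val_toE (hF : Fintype.card F = 2 ^ h) (hv : ∀ i j, i ≠ j → om (v i) (v j) ≠ 0)
    (c : ι → F) (j : ι) : val v (toE h v c) j = ∑ i, c i + c j := by
  rw [val_apply]
  change bfL (hat (v j)) (∑ i, c i • hat (v i)) = _
  rw [map_sum]
  have h1 : ∀ i, bfL (hat (v j)) (c i • hat (h := h) (v i)) = c i + if i = j then c i else 0 := by
    intro i
    rw [map_smul, bfL_apply, gram hF hv, smul_eq_mul]
    split_ifs <;> ring
  simp_rw [h1]
  rw [Finset.sum_add_distrib]
  simp

/-- **The hats span.** -/
theorem hat_span (hF : Fintype.card F = 2 ^ h) (hι : Fintype.card ι = Fintype.card F ^ 2 + 1)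
    (hv : ∀ i j, i ≠ j → om (v i) (v j) ≠ 0) :
    Submodule.span F (Set.range fun i => hat (h := h) (v i)) = ⊤ := by
  -- the kernel of `toE` has dimension at most one
  have hker : LinearMap.ker (toE h v) ≤ Submodule.span F {fun _ => (1 : F)} := by
    intro c hc
    rw [LinearMap.mem_ker] at hc
    have h1 : ∀ j, ∑ i, c i + c j = 0 := fun j => by
      rw [← val_toE (h := h) hF hv c j, hc, map_zero, Pi.zero_apply]
    rw [Submodule.mem_span_singleton]
    refine ⟨∑ i, c i, funext fun j => ?_⟩
    rw [Pi.smul_apply, smul_eq_mul, mul_one]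
    exact CharTwo.add_eq_zero.1 (h1 j)
  have h3 : Module.finrank F (LinearMap.ker (toE h v)) ≤ 1 := by
    refine (Submodule.finrank_mono hker).trans ?_
    exact (finrank_span_le_card _).trans (by simp)
  have h4 := LinearMap.finrank_range_add_finrank_ker (toE h v)
  rw [Module.finrank_fintype_fun_eq_card, hι] at h4
  have h5 : Module.finrank F (E F h) = Fintype.card F ^ 2 := by
    change Module.finrank F ((ZMod h → Fin 4) → F) = _
    rw [Module.finrank_fintype_fun_eq_card, Fintype.card_fun, ZMod.card, Fintype.card_fin, hF,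
      ← pow_mul, mul_comm, pow_mul]
    norm_num
  have h6 : LinearMap.range (toE h v) = ⊤ := by
    refine Submodule.eq_top_of_finrank_eq ?_
    have h7 := Submodule.finrank_le (LinearMap.range (toE h v))
    rw [h5] at h7 ⊢
    omega
  rw [eq_top_iff, ← h6]
  rintro _ ⟨c, rfl⟩
  exact Submodule.sum_mem _ fun i _ => Submodule.smul_mem _ _ (Submodule.subset_span ⟨i, rfl⟩)

/-- **The form is the sum over the ovoid.** -/
theorem planch (hF : Fintype.card F = 2 ^ h) (hι : Fintype.card ι = Fintype.card F ^ 2 + 1)
    (hv : ∀ i j, i ≠ j → om (v i) (v j) ≠ 0) (φ ψ : E F h) :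
    ∑ i, bf φ (hat (v i)) * bf ψ (hat (v i)) = bf φ ψ := by
  have h2 := two_eq (F := F)
  have hs := hat_span (h := h) hF hι hv
  have hcard : ((Fintype.card ι : ℕ) : F) = 1 := by
    rw [hι, hF, Nat.cast_add, Nat.cast_pow, Nat.cast_pow, Nat.cast_ofNat, h2,
      zero_pow (NeZero.ne h), zero_pow (by norm_num), zero_add, Nat.cast_one]
  have h1 : φ ∈ Submodule.span F (Set.range fun i => hat (h := h) (v i)) := by
    rw [hs]; trivial
  have h1' : ψ ∈ Submodule.span F (Set.range fun i => hat (h := h) (v i)) := by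
    rw [hs]; trivial
  induction h1 using Submodule.span_induction with
  | mem x hx =>
    obtain ⟨a, rfl⟩ := hx
    induction h1' using Submodule.span_induction with
    | mem x hx =>
      obtain ⟨b, rfl⟩ := hx
      simp only
      simp_rw [gram hF hv]
      have e1 : ∀ i, ((1 : F) + if a = i then 1 else 0) * (1 + if b = i then 1 else 0) =
          1 + (if a = i then 1 else 0) + (if b = i then 1 else 0) +
            (if a = i then (if b = i then 1 else 0) else 0) := by
        intro i
        split_ifs <;> ring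
      simp_rw [e1]
      rw [Finset.sum_add_distrib, Finset.sum_add_distrib, Finset.sum_add_distrib,
        Finset.sum_const, Finset.card_univ, nsmul_eq_mul, hcard, Finset.sum_ite_eq,
        Finset.sum_ite_eq, Finset.sum_ite_eq]
      simp only [mem_univ, if_true, mul_one]
      have e2 : (if b = a then (1 : F) else 0) = if a = b then 1 else 0 := by
        simp only [eq_comm]
      rw [e2]
      linear_combination h2
    | zero =>
      have e1 : ∀ χ : E F h, bf (0 : E F h) χ = 0 := fun χ => map_zero (bfL χ)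
      rw [bf_comm _ (0 : E F h), e1]
      exact Finset.sum_eq_zero fun i _ => by rw [e1, mul_zero]
    | add x y _ _ hx hy =>
      rw [bf_comm _ (x + y), bf_add_left, bf_comm x, bf_comm y, ← hx, ← hy,
        ← Finset.sum_add_distrib]
      exact Finset.sum_congr rfl fun i _ => by rw [bf_add_left]; ring
    | smul r x _ hx =>
      rw [bf_comm _ (r • x), bf_smul_left, bf_comm x, ← hx, Finset.mul_sum]
      exact Finset.sum_congr rfl fun i _ => by rw [bf_smul_left]; ring
  | zero =>
    have e1 : ∀ χ : E F h, bf (0 : E F h) χ = 0 := fun χ => map_zero (bfL χ)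
    rw [e1]
    exact Finset.sum_eq_zero fun i _ => by rw [e1, zero_mul]
  | add x y _ _ hx hy =>
    rw [bf_add_left, ← hx, ← hy, ← Finset.sum_add_distrib]
    exact Finset.sum_congr rfl fun i _ => by rw [bf_add_left]; ring
  | smul r x _ hx =>
    rw [bf_smul_left, ← hx, Finset.mul_sum]
    exact Finset.sum_congr rfl fun i _ => by rw [bf_smul_left]; ring

end ovoid

end Pool.OVE55
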