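import Pool.Agent.H55.OVO.Fact1

/-!
# EP and FACT 1'

`ep` : a digit without letter, three letters at the next digit, two letters elsewhere: the sum is 0.
`fact1'` : three letters at digit 0, no letter at digit 1, one letter elsewhere... precisely
`a₀ b₀ ∏_{n ≠ 1} (α n)_n`: the sum is 0.
-/

set_option autoImplicit false

namespace Pool.OVE55

open Finset Function Pool.OVE

section twist

variable {F : Type} [Field F] [Fintype F] [CharP F 2] {h : ℕ} [NeZero h]

omit [CharP F 2] in
/-- The next digit. -/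
theorem pw_succ (hF : Fintype.card F = 2 ^ h) (y : Fin 4 → F) (k : ZMod h) (i : Fin 4) :
    pw y (k + 1) i = pw y k i ^ 2 := by
  unfold pw
  have h0 := NeZero.pos h
  have h1 := ZMod.val_lt k
  rw [← pow_mul, ← pow_succ]
  rcases Nat.lt_or_ge (k.val + 1) h with h2 | h2
  · have h3 : (k + 1).val = k.val + 1 := by
      rcases Nat.lt_or_ge 1 h with h4 | h4
      · have : Fact (1 < h) := ⟨h4⟩
        rw [ZMod.val_add, ZMod.val_one, Nat.mod_eq_of_lt h2]
      · omega
    rw [h3]
  · have h3 : k.val + 1 = h := by omega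
    have h4 : (k + 1).val = 0 := by
      have h5 : k + 1 = 0 := by
        have h6 : ((k.val + 1 : ℕ) : ZMod h) = 0 := by rw [h3]; exact ZMod.natCast_self h
        rwa [Nat.cast_add, Nat.cast_one, ZMod.natCast_zmod_val] at h6
      rw [h5, ZMod.val_zero]
    rw [h4, h3, pow_zero, pow_one, ← hF, FiniteField.pow_card]

theorem om_sq (hF : Fintype.card F = 2 ^ h) (c y : Fin 4 → F) (k : ZMod h) :
    om (fun i => c i ^ 2) (pw y (k + 1)) = om c (pw y k) ^ 2 := by
  have h2 := two_eq (F := F)
  unfold om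
  rw [pw_succ hF, pw_succ hF, pw_succ hF, pw_succ hF]
  linear_combination -(c 0 * pw y k 3 * (c 1 * pw y k 2) + c 0 * pw y k 3 * (c 2 * pw y k 1) +
    c 0 * pw y k 3 * (c 3 * pw y k 0) + c 1 * pw y k 2 * (c 2 * pw y k 1) +
    c 1 * pw y k 2 * (c 3 * pw y k 0) + c 2 * pw y k 1 * (c 3 * pw y k 0)) * h2

end twist

section ovoid

variable {F : Type} [Field F] [Fintype F] [CharP F 2] {h : ℕ} [NeZero h] {ι : Type} [Fintype ι]
  [DecidableEq ι] {v : ι → Fin 4 → F}

/-- **Two letters at every digit.** -/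
theorem two_letters (hF : Fintype.card F = 2 ^ h) (hι : Fintype.card ι = Fintype.card F ^ 2 + 1)
    (hv : ∀ i j, i ≠ j → om (v i) (v j) ≠ 0) (α β : ZMod h → Fin 4 → F) :
    ∑ i, ∏ n, (om (α n) (pw (v i) n) * om (β n) (pw (v i) n)) = ∏ n, om (α n) (β n) := by
  rw [← bf_pr, ← planch hF hι hv]
  refine Finset.sum_congr rfl fun i _ => ?_
  unfold hat
  rw [bf_pr, bf_pr, Finset.prod_mul_distrib]

/-- **EP.** -/
theorem ep_om (hF : Fintype.card F = 2 ^ h) (hι : Fintype.card ι = Fintype.card F ^ 2 + 1)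
    (hv : ∀ i j, i ≠ j → om (v i) (v j) ≠ 0) (k : ZMod h) (c : Fin 4 → F)
    (α β : ZMod h → Fin 4 → F) :
    ∑ i, om c (pw (v i) (k + 1)) *
      ∏ n ∈ univ.erase k, (om (α n) (pw (v i) n) * om (β n) (pw (v i) n)) = 0 := by
  obtain ⟨d, hd⟩ : ∃ d : Fin 4 → F, ∀ i, d i ^ 2 = c i :=
    ⟨fun i => (frobeniusEquiv F 2).symm (c i), fun i => by simp⟩
  have hc : c = fun i => d i ^ 2 := funext fun i => (hd i).symm
  have h1 := two_letters hF hι hv (update α k d) (update β k d)
  have h2 : ∏ n, om (update α k d n) (update β k d n) = 0 := by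
    refine Finset.prod_eq_zero (mem_univ k) ?_
    rw [update_self, update_self, om_self]
  rw [h2] at h1
  rw [← h1]
  refine Finset.sum_congr rfl fun i _ => ?_
  rw [← Finset.mul_prod_erase univ _ (mem_univ k), update_self, update_self, hc, om_sq hF, sq]
  congr 1
  refine Finset.prod_congr rfl fun n hn => ?_
  have hn' : n ≠ k := (mem_erase.1 hn).1
  rw [update_of_ne hn', update_of_ne hn']

/-- **One letter at every digit.** -/
theorem one_letter (hF : Fintype.card F = 2 ^ h) (hι : Fintype.card ι = Fintype.card F ^ 2 + 1)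
    (hv : ∀ i j, i ≠ j → om (v i) (v j) ≠ 0) (φ : E F h) : ∑ i, bf φ (hat (v i)) = 0 := by
  have h2 := two_eq (F := F)
  have hs := hat_span (h := h) hF hι hv
  have h1 : φ ∈ Submodule.span F (Set.range fun i => hat (h := h) (v i)) := by
    rw [hs]; trivial
  have hcard : ((Fintype.card ι : ℕ) : F) = 1 := by
    rw [hι, hF, Nat.cast_add, Nat.cast_pow, Nat.cast_pow, Nat.cast_ofNat, h2,
      zero_pow (NeZero.ne h), zero_pow (by norm_num), zero_add, Nat.cast_one]
  induction h1 using Submodule.span_induction with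
  | mem x hx =>
    obtain ⟨a, rfl⟩ := hx
    simp only
    simp_rw [gram hF hv]
    rw [Finset.sum_add_distrib, Finset.sum_const, Finset.card_univ, nsmul_eq_mul, hcard,
      Finset.sum_ite_eq]
    simp only [mem_univ, if_true, mul_one]
    linear_combination h2
  | zero => exact Finset.sum_eq_zero fun i _ => map_zero (bfL (hat (v i)))
  | add x y _ _ hx hy =>
    have : ∀ i, bf (x + y) (hat (v i)) = bf x (hat (v i)) + bf y (hat (v i)) := fun i =>
      bf_add_left _ _ _
    simp_rw [this]
    rw [Finset.sum_add_distrib, hx, hy, add_zero]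
  | smul r x _ hx =>
    have : ∀ i, bf (r • x) (hat (v i)) = r * bf x (hat (v i)) := fun i => bf_smul_left _ _ _
    simp_rw [this]
    rw [← Finset.mul_sum, hx, mul_zero]

omit [CharP F 2] in
/-- A sum over the field. -/
theorem sum_field [CharP F 2] (hq : 4 ≤ Fintype.card F) (A X : F) :
    ∑ c : F, c * (A + c * X) ^ (Fintype.card F - 1) = A * X ^ (Fintype.card F - 2) := by
  classical
  have h2 := two_eq (F := F)
  have h0 : ∑ c : F, c = 0 := by
    have := FiniteField.sum_pow_lt_card_sub_one (K := F) 1 (by omega)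
    simpa using this
  by_cases hX : X = 0
  · rw [hX, zero_pow (by omega), mul_zero]
    simp_rw [mul_zero, add_zero]
    rw [← Finset.sum_mul, h0, zero_mul]
  · have h1 : ∀ c : F, c * (A + c * X) ^ (Fintype.card F - 1) = c + if c = A * X⁻¹ then c else 0 := by
      intro c
      by_cases hc : c = A * X⁻¹
      · rw [if_pos hc]
        have h3 : A + c * X = 0 := by
          rw [hc, mul_assoc, inv_mul_cancel₀ hX, mul_one]
          linear_combination A * h2
        rw [h3, zero_pow (by omega)]
        linear_combination -c * h2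
      · rw [if_neg hc]
        have h3 : A + c * X ≠ 0 := by
          intro h4
          refine hc ?_
          have h5 : A = c * X := by linear_combination h4 - c * X * h2
          rw [h5, mul_assoc, mul_inv_cancel₀ hX, mul_one]
        rw [FiniteField.pow_card_sub_one_eq_one _ h3, mul_one, add_zero]
    simp_rw [h1]
    rw [Finset.sum_add_distrib, h0, zero_add, Finset.sum_ite_eq']
    simp only [mem_univ, if_true]
    have h3 : X ^ (Fintype.card F - 2) = X⁻¹ := by
      refine eq_inv_of_mul_eq_one_left ?_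
      rw [← pow_succ, show Fintype.card F - 2 + 1 = Fintype.card F - 1 by omega,
        FiniteField.pow_card_sub_one_eq_one _ hX]
    rw [h3]

omit [Fintype F] [CharP F 2] in
/-- A product of powers. -/
theorem prod_pow_erase (k : ZMod h) (X : F) :
    ∏ n ∈ univ.erase k, X ^ (2 ^ n.val) = X ^ (2 ^ h - 1 - 2 ^ k.val) := by
  rw [Finset.prod_pow_eq_pow_sum]
  congr 1
  have h1 := sum_two_pow (h := h)
  rw [← Finset.add_sum_erase univ _ (mem_univ k)] at h1
  exact (Nat.sub_eq_of_eq_add (by rw [← h1, add_comm])).symm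

omit [Fintype F] [CharP F 2] [NeZero h] in
theorem pw_zero [NeZero h] (y : Fin 4 → F) : pw (h := h) y 0 = y := by
  funext i
  unfold pw
  rw [ZMod.val_zero, pow_zero, pow_one]

omit [Fintype F] in
/-- The value of `b₀ x₁ x₂ …`. -/
theorem bf_upd (k : ZMod h) (b x y : Fin 4 → F) :
    bf (pr (update (pw x) k b)) (hat y) =
      om b (pw y k) * om x y ^ (2 ^ h - 1 - 2 ^ k.val) := by
  unfold hat
  rw [bf_pr, ← Finset.mul_prod_erase univ _ (mem_univ k), update_self, ← prod_pow_erase]
  congr 1
  refine Finset.prod_congr rfl fun n hn => ?_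
  rw [update_of_ne (mem_erase.1 hn).1, om_pw]

theorem step1 (hF : Fintype.card F = 2 ^ h) (h2h : 2 ≤ h)
    (hι : Fintype.card ι = Fintype.card F ^ 2 + 1)
    (hv : ∀ i j, i ≠ j → om (v i) (v j) ≠ 0) {x a : Fin 4 → F} (hxa : om x a = 0)
    (b : Fin 4 → F) :
    ∑ i, om b (v i) * om a (v i) * om x (v i) ^ (Fintype.card F - 3) = 0 := by
  have hq : 4 ≤ Fintype.card F := by
    rw [hF]
    calc 4 = 2 ^ 2 := rfl
      _ ≤ 2 ^ h := Nat.pow_le_pow_right (by norm_num) h2h
  have k1 : ∀ c : F, ∑ i, om b (v i) * om x (v i) ^ (Fintype.card F - 2) *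
      (om a (v i) + c * om x (v i)) ^ (Fintype.card F - 1) = 0 := by
    intro c
    have h1 := planch hF hι hv (pr (update (pw x) (0 : ZMod h) b)) (hat (a + c • x))
    rw [bf_upd] at h1
    have h3 : om x (a + c • x) = 0 := by
      have e1 : om x (a + c • x) = om x a + c * om x x := by
        unfold om
        simp only [Pi.add_apply, Pi.smul_apply, smul_eq_mul]
        ring
      rw [e1, hxa, om_self, mul_zero, add_zero]
    rw [h3, zero_pow (by rw [ZMod.val_zero]; omega), mul_zero] at h1
    rw [← h1]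
    refine Finset.sum_congr rfl fun i _ => ?_
    rw [bf_upd, bf_hat, pw_zero, ZMod.val_zero, pow_zero, ← hF, Nat.sub_sub]
    congr 2
    unfold om
    simp only [Pi.add_apply, Pi.smul_apply, smul_eq_mul]
    ring
  have k2 : ∑ c : F, c * ∑ i, om b (v i) * om x (v i) ^ (Fintype.card F - 2) *
      (om a (v i) + c * om x (v i)) ^ (Fintype.card F - 1) = 0 :=
    Finset.sum_eq_zero fun c _ => by rw [k1 c, mul_zero]
  rw [← k2]
  simp_rw [Finset.mul_sum]
  rw [Finset.sum_comm]
  refine Finset.sum_congr rfl fun i _ => ?_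
  have e1 : ∀ c : F, c * (om b (v i) * om x (v i) ^ (Fintype.card F - 2) *
      (om a (v i) + c * om x (v i)) ^ (Fintype.card F - 1)) =
      (om b (v i) * om x (v i) ^ (Fintype.card F - 2)) *
        (c * (om a (v i) + c * om x (v i)) ^ (Fintype.card F - 1)) := fun c => by ring
  simp_rw [e1]
  rw [← Finset.mul_sum, sum_field hq]
  by_cases hX : om x (v i) = 0
  · rw [hX, zero_pow (by omega), zero_pow (by omega)]
    ring
  · have e2 : om x (v i) ^ (Fintype.card F - 3) =
        om x (v i) ^ (Fintype.card F - 2) * om x (v i) ^ (Fintype.card F - 2) := by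
      rw [← pow_add, show Fintype.card F - 2 + (Fintype.card F - 2) =
        (Fintype.card F - 1) + (Fintype.card F - 3) by omega, pow_add,
        FiniteField.pow_card_sub_one_eq_one _ hX, one_mul]
    rw [e2]
    ring

theorem step2 (hF : Fintype.card F = 2 ^ h) (h2h : 2 ≤ h)
    (hι : Fintype.card ι = Fintype.card F ^ 2 + 1)
    (hv : ∀ i j, i ≠ j → om (v i) (v j) ≠ 0) (x b : Fin 4 → F) :
    ∑ i, om b (v i) * om b (v i) * om x (v i) ^ (Fintype.card F - 3) = 0 := by
  have : Fact (1 < h) := ⟨by omega⟩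
  have h1 := one_letter hF hι hv (pr (update (pw x) (1 : ZMod h) (fun i => b i ^ 2)))
  rw [← h1]
  refine Finset.sum_congr rfl fun i _ => ?_
  have h3 := om_sq hF b (v i) (0 : ZMod h)
  rw [zero_add, pw_zero] at h3
  rw [bf_upd, h3, ZMod.val_one, pow_one, hF, Nat.sub_sub]
  ring

theorem step3 (hF : Fintype.card F = 2 ^ h) (h2h : 2 ≤ h)
    (hι : Fintype.card ι = Fintype.card F ^ 2 + 1)
    (hv : ∀ i j, i ≠ j → om (v i) (v j) ≠ 0) (x a b : Fin 4 → F) :
    ∑ i, om a (v i) * om b (v i) * om x (v i) ^ (Fintype.card F - 3) = 0 := by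
  have h2 := two_eq (F := F)
  by_cases hb : om x b = 0
  · exact step1 hF h2h hι hv hb a
  · have h3 : om x (om x b • a + om x a • b) = 0 := by
      have e1 : om x (om x b • a + om x a • b) = om x b * om x a + om x a * om x b := by
        unfold om
        simp only [Pi.add_apply, Pi.smul_apply, smul_eq_mul]
        ring
      rw [e1]
      linear_combination om x a * om x b * h2
    have h4 := step1 hF h2h hι hv h3 b
    have h5 := step2 hF h2h hι hv x b
    have h6 : ∑ i, om b (v i) * om (om x b • a + om x a • b) (v i) *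
        om x (v i) ^ (Fintype.card F - 3) =
        om x b * ∑ i, om a (v i) * om b (v i) * om x (v i) ^ (Fintype.card F - 3) +
        om x a * ∑ i, om b (v i) * om b (v i) * om x (v i) ^ (Fintype.card F - 3) := by
      rw [Finset.mul_sum, Finset.mul_sum, ← Finset.sum_add_distrib]
      refine Finset.sum_congr rfl fun i _ => ?_
      have e1 : om (om x b • a + om x a • b) (v i) = om x b * om a (v i) + om x a * om b (v i) := by
        unfold om
        simp only [Pi.add_apply, Pi.smul_apply, smul_eq_mul]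
        ring
      rw [e1]
      ring
    rw [h4, h5, mul_zero, add_zero] at h6
    exact (mul_eq_zero.1 h6.symm).resolve_left hb

/-- **FACT 1'**, for an element of the space. -/
theorem fact1'_bf (hF : Fintype.card F = 2 ^ h) (h2h : 2 ≤ h)
    (hι : Fintype.card ι = Fintype.card F ^ 2 + 1)
    (hv : ∀ i j, i ≠ j → om (v i) (v j) ≠ 0) (a b c : Fin 4 → F) (φ : E F h) :
    ∑ i, om a (v i) * om b (v i) * bf φ (pr (update (pw (v i)) 1 c)) = 0 := by
  have : Fact (1 < h) := ⟨by omega⟩
  have hs := hat_span (h := h) hF hι hv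
  have h1 : φ ∈ Submodule.span F (Set.range fun i => hat (h := h) (v i)) := by
    rw [hs]; trivial
  induction h1 using Submodule.span_induction with
  | mem x hx =>
    obtain ⟨j, rfl⟩ := hx
    have h3 := step3 hF h2h hι hv (v j) a b
    have e1 : ∀ i, bf (hat (v j)) (pr (update (pw (v i)) (1 : ZMod h) c)) =
        om c (pw (v j) (1 : ZMod h)) * om (v j) (v i) ^ (Fintype.card F - 3) := by
      intro i
      rw [bf_comm, bf_upd, ZMod.val_one, pow_one, hF, Nat.sub_sub, om_comm (v i)]
    simp only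
    simp_rw [e1]
    have e2 : ∀ i, om a (v i) * om b (v i) * (om c (pw (v j) (1 : ZMod h)) *
        om (v j) (v i) ^ (Fintype.card F - 3)) = om c (pw (v j) (1 : ZMod h)) *
        (om a (v i) * om b (v i) * om (v j) (v i) ^ (Fintype.card F - 3)) := fun i => by ring
    simp_rw [e2]
    rw [← Finset.mul_sum, h3, mul_zero]
  | zero =>
    refine Finset.sum_eq_zero fun i _ => ?_
    have e1 : ∀ χ : E F h, bf (0 : E F h) χ = 0 := fun χ => map_zero (bfL χ)
    rw [e1, mul_zero]
  | add x y _ _ hx hy =>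
    simp_rw [bf_add_left, mul_add]
    rw [Finset.sum_add_distrib, hx, hy, add_zero]
  | smul r x _ hx =>
    have e1 : ∀ i, om a (v i) * om b (v i) * bf (r • x) (pr (update (pw (v i)) (1 : ZMod h) c)) =
        r * (om a (v i) * om b (v i) * bf x (pr (update (pw (v i)) (1 : ZMod h) c))) := fun i => by
      rw [bf_smul_left]; ring
    simp_rw [e1]
    rw [← Finset.mul_sum, hx, mul_zero]

/-- **FACT 1'.** -/
theorem fact1'_om (hF : Fintype.card F = 2 ^ h) (h2h : 2 ≤ h)
    (hι : Fintype.card ι = Fintype.card F ^ 2 + 1)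
    (hv : ∀ i j, i ≠ j → om (v i) (v j) ≠ 0) (a b : Fin 4 → F) (α : ZMod h → Fin 4 → F) :
    ∑ i, om a (v i) * om b (v i) * ∏ n ∈ univ.erase 1, om (α n) (pw (v i) n) = 0 := by
  have h1 := fact1'_bf hF h2h hι hv a b (Pi.single 0 1)
    (pr (update α (1 : ZMod h) (Pi.single 3 1)))
  rw [← h1]
  refine Finset.sum_congr rfl fun i _ => ?_
  rw [bf_pr, ← Finset.mul_prod_erase univ _ (mem_univ (1 : ZMod h)), update_self, update_self]
  have e1 : om (Pi.single 3 1 : Fin 4 → F) (Pi.single 0 1) = 1 := by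
    unfold om
    simp
  rw [e1, one_mul]
  congr 1
  refine Finset.prod_congr rfl fun n hn => ?_
  have hn' := (mem_erase.1 hn).1
  rw [update_of_ne hn', update_of_ne hn']

/-! ## In coordinates -/

omit [Fintype F] [CharP F 2] [NeZero h] in
theorem om_single (i : Fin 4) (y : Fin 4 → F) : om (Pi.single (br i) 1) y = y i := by
  unfold om br
  fin_cases i <;> simp

/-- **EP**, in coordinates. -/
theorem ep (hF : Fintype.card F = 2 ^ h) (hι : Fintype.card ι = Fintype.card F ^ 2 + 1)
    (hv : ∀ i j, i ≠ j → om (v i) (v j) ≠ 0) (k : ZMod h) (l : Fin 4) (w w' : ZMod h → Fin 4) :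
    ∑ i, v i l ^ (2 ^ (k + 1).val) * ∏ n ∈ univ.erase k,
      (v i (w n) ^ (2 ^ n.val) * v i (w' n) ^ (2 ^ n.val)) = 0 := by
  have h1 := ep_om hF hι hv k (Pi.single (br l) 1) (fun n => Pi.single (br (w n)) 1)
    (fun n => Pi.single (br (w' n)) 1)
  simp_rw [om_single] at h1
  exact h1

/-- **FACT 1'**, in coordinates. -/
theorem fact1' (hF : Fintype.card F = 2 ^ h) (h2h : 2 ≤ h)
    (hι : Fintype.card ι = Fintype.card F ^ 2 + 1)
    (hv : ∀ i j, i ≠ j → om (v i) (v j) ≠ 0) (p q : Fin 4) (w : ZMod h → Fin 4) :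
    ∑ i, v i p * v i q * ∏ n ∈ univ.erase 1, v i (w n) ^ (2 ^ n.val) = 0 := by
  have h1 := fact1'_om hF h2h hι hv (Pi.single (br p) 1) (Pi.single (br q) 1)
    (fun n => Pi.single (br (w n)) 1)
  simp_rw [om_single] at h1
  exact h1

end ovoid

end Pool.OVE55
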