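import Pool.Agent.H55.OVO.Fact1p
import Pool.Agent.H74.OVL.St

/-!
# EP and FACT 1' in the literals of `Pool.OVL`
-/

set_option autoImplicit false

namespace Pool.OVE55

open Finset Function

theorem om_iff {F : Type} [Field F] (u v : Fin 4 → F) : Pool.OVE.om u v = Pool.OVL.om u v := by
  unfold Pool.OVE.om Pool.OVL.om
  ring

theorem erase_compl {h : ℕ} [NeZero h] (k : ZMod h) :
    (univ : Finset (ZMod h)).erase k = ({k} : Finset (ZMod h))ᶜ := by
  ext m
  simp

/-- **EP.** -/
theorem epStmt : Pool.OVL.EPStmt := by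
  classical
  intro F _ _ _ h _ Om _ y H k a b c w w'
  have hh := H.hh
  have : Fact (1 < h) := ⟨by omega⟩
  have hk : (k + 1 : ZMod h) ≠ k := by
    intro e
    have h1 : (1 : ZMod h) = 0 := by
      have := congrArg (fun x => x - k) e
      simp at this
    exact one_ne_zero h1
  have h1 := ep (h := h) H.cq H.card (fun i j hij => by
    rw [om_iff]; exact H.off i j hij) k a (update w (k + 1) b) (update w' (k + 1) c)
  rw [← h1]
  refine Finset.sum_congr rfl fun o _ => ?_
  have h2 : (k + 1 : ZMod h) ∈ univ.erase k := mem_erase.2 ⟨hk, mem_univ _⟩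
  rw [← Finset.mul_prod_erase _ _ h2, update_self, update_self]
  have h3 : (univ.erase k).erase (k + 1) = ({k, k + 1} : Finset (ZMod h))ᶜ := by
    ext m
    simp only [mem_erase, mem_univ, and_true, mem_compl, mem_insert, mem_singleton, not_or]
    exact and_comm
  unfold Pool.OVL.wx Pool.OVL.fr
  rw [← Finset.prod_mul_distrib, h3]
  have h4 : ∀ n ∈ ({k, k + 1} : Finset (ZMod h))ᶜ,
      y o (update w (k + 1) b n) ^ 2 ^ n.val * y o (update w' (k + 1) c n) ^ 2 ^ n.val =
      y o (w n) ^ 2 ^ n.val * y o (w' n) ^ 2 ^ n.val := by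
    intro n hn
    have hn' : n ≠ k + 1 := by
      rintro rfl
      simp at hn
    rw [update_of_ne hn', update_of_ne hn']
  rw [Finset.prod_congr rfl h4]
  ring

/-- **FACT 1'.** -/
theorem l3Stmt : Pool.OVL.L3Stmt := by
  classical
  intro F _ _ _ h _ Om _ y H i j w
  have hh := H.hh
  have h1 := fact1' (h := h) H.cq (by omega) H.card (fun i j hij => by
    rw [om_iff]; exact H.off i j hij) i j w
  rw [← h1]
  refine Finset.sum_congr rfl fun o _ => ?_
  rw [erase_compl]
  rfl

end Pool.OVE55
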